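import Pool.Agent.L7h77.FX.Stm

/-! [DL] of project FX (helper77). -/

set_option autoImplicit false

namespace Pool.Agent.L7h21.FX

open Pool.Agent.L7h77.FX Pool.Agent.W716.FV

theorem s_DL (hL : S_LOG) : S_DL := by
  intro n A hA s φ hs0 hs1 hφ hs hpos
  set T : E n →ₗ[ℝ] E n := (A : E n →ₗ[ℝ] E n) with hTdef
  have hT : T.IsSymmetric := by
    intro v w
    have h := hA v w
    rw [real_inner_comm] at h
    rw [real_inner_comm] at h
    exact h.trans (real_inner_comm _ _)
  have hn : Module.finrank ℝ (E n) = n := by simp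
  set ev := hT.eigenvalues hn with hev
  set b := hT.eigenvectorBasis hn with hb
  -- sum of the squares
  have hsq : ∑ i, ‖A (EuclideanSpace.single i 1)‖ ^ 2 = ∑ i, ev i ^ 2 := by
    have h1 := LinearMap.trace_eq_sum_inner (T ∘ₗ T) (EuclideanSpace.basisFun (Fin n) ℝ)
    have h2 := LinearMap.trace_eq_sum_inner (T ∘ₗ T) b
    have h3 : ∑ i, ‖A (EuclideanSpace.single i 1)‖ ^ 2 = LinearMap.trace ℝ (E n) (T ∘ₗ T) := by
      rw [h1]
      refine Finset.sum_congr rfl (fun i _ => ?_)
      rw [LinearMap.comp_apply, ← hT, EuclideanSpace.basisFun_apply, real_inner_self_eq_norm_sq]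
      rfl
    rw [h3, h2]
    refine Finset.sum_congr rfl (fun i _ => ?_)
    rw [LinearMap.comp_apply, ← hT, hT.apply_eigenvectorBasis hn i, real_inner_self_eq_norm_sq,
      norm_smul, mul_pow]
    rw [(hT.eigenvectorBasis hn).norm_eq_one]
    simp [hev]
  have htr : LinearMap.trace ℝ (E n) T = ∑ i, ev i := by
    have := hT.trace_eq_sum_eigenvalues hn
    simpa using this
  have hdet : (A - ContinuousLinearMap.id ℝ (E n)).det = ∏ i, (ev i - 1) := by
    rw [ContinuousLinearMap.det]
    have h1 : ((A - ContinuousLinearMap.id ℝ (E n) : E n →L[ℝ] E n) : E n →ₗ[ℝ] E n) =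
        T - LinearMap.id := by
      ext v; simp [hTdef]
    rw [h1, ← LinearMap.det_toMatrix b.toBasis, map_sub, LinearMap.toMatrix_id,
      hT.toMatrix_eigenvectorBasis hn]
    rw [← Matrix.diagonal_one, Matrix.diagonal_sub, Matrix.det_diagonal]
    rfl
  have hev2 : ∀ i, ev i ≤ s := by
    intro i
    have h1 := hpos (b i)
    have h2 : A (b i) = ((ev i : ℝ)) • b i := hT.apply_eigenvectorBasis hn i
    rw [h2, real_inner_smul_left, real_inner_self_eq_norm_sq, b.norm_eq_one] at h1
    simpa using h1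
  rw [hsq, htr, hdet]
  rw [Finset.abs_prod]
  rw [show -(∑ i, ev i) - φ * ∑ i, ev i ^ 2 = ∑ i, (-ev i - φ * ev i ^ 2) by
    rw [Finset.sum_sub_distrib, Finset.sum_neg_distrib, Finset.mul_sum]]
  rw [Real.exp_sum]
  refine Finset.prod_le_prod (fun i _ => (Real.exp_pos _).le) (fun i _ => ?_)
  refine (hL s φ (ev i) hs0 hs1 hφ hs (hev2 i)).trans ?_
  rw [abs_sub_comm]
  exact le_abs_self _

end Pool.Agent.L7h21.FX
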