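import Pool.Agent.L7h77.FX.Stm

/-! [LOG] of project FX (helper77). -/

set_option autoImplicit false

namespace Pool.Agent.L7h21.FX

open Pool.Agent.L7h77.FX

theorem s_LOG : S_LOG := by
  intro s φ x hs0 hs1 hφ hs hxs
  let g : ℝ → ℝ := fun y => Real.log (1 - y) + y + φ * y ^ 2
  have hd : ∀ y : ℝ, y < 1 → HasDerivAt g (y * (2 * φ * (1 - y) - 1) / (1 - y)) y := by
    intro y hy
    have h : HasDerivAt (fun y : ℝ => 1 - y) (-1) y := by
      simpa using (hasDerivAt_id y).const_sub 1
    have h3 := (h.log (by linarith : (1 : ℝ) - y ≠ 0)).add (hasDerivAt_id y)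
    have h4 := h3.add ((hasDerivAt_pow 2 y).const_mul φ)
    refine (h4.congr_deriv ?_)
    have : (1 : ℝ) - y ≠ 0 := by linarith
    field_simp
    ring
  have hc : ContinuousOn g (Set.Iio 1) := fun y hy => (hd y hy).continuousAt.continuousWithinAt
  have h0 : g 0 = 0 := by simp [g]
  have hx1 : x < 1 := lt_of_le_of_lt hxs hs1
  suffices h : 0 ≤ g x by
    have e : g x = Real.log (1 - x) + x + φ * x ^ 2 := rfl
    rw [← Real.le_log_iff_exp_le (by linarith)]
    linarith
  have hgs : 0 ≤ g s := by
    have e : g s = Real.log (1 - s) + s + φ * s ^ 2 := rfl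
    rw [← Real.le_log_iff_exp_le (by linarith)] at hs
    linarith
  have hφ0 : 0 < φ := by linarith
  rcases le_total x 0 with hx | hx
  · have hanti : AntitoneOn g (Set.Icc x 0) := by
      apply antitoneOn_of_deriv_nonpos (convex_Icc _ _)
      · exact hc.mono (fun y hy => by have := hy.2; simp only [Set.mem_Iio]; linarith)
      · intro y hy
        rw [interior_Icc] at hy
        exact (hd y (by linarith [hy.2])).differentiableAt.differentiableWithinAt
      · intro y hy
        rw [interior_Icc] at hy
        rw [(hd y (by linarith [hy.2])).deriv]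
        apply div_nonpos_of_nonpos_of_nonneg
        · refine mul_nonpos_of_nonpos_of_nonneg hy.2.le ?_
          nlinarith [hy.1, hy.2]
        · linarith [hy.2]
    have := hanti (⟨le_refl _, hx⟩ : x ∈ Set.Icc x 0) (⟨hx, le_refl _⟩ : (0 : ℝ) ∈ Set.Icc x 0) hx
    linarith
  · rcases le_total (2 * φ * x) (2 * φ - 1) with hx2 | hx2
    · have hmono : MonotoneOn g (Set.Icc 0 x) := by
        apply monotoneOn_of_deriv_nonneg (convex_Icc _ _)
        · exact hc.mono (fun y hy => by have := hy.2; simp only [Set.mem_Iio]; linarith)
        · intro y hy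
          rw [interior_Icc] at hy
          exact (hd y (by linarith [hy.2])).differentiableAt.differentiableWithinAt
        · intro y hy
          rw [interior_Icc] at hy
          rw [(hd y (by linarith [hy.2])).deriv]
          apply div_nonneg
          · refine mul_nonneg hy.1.le ?_
            nlinarith [hy.1, hy.2]
          · linarith [hy.2]
      have := hmono (⟨le_refl _, hx⟩ : (0 : ℝ) ∈ Set.Icc (0 : ℝ) x) (⟨hx, le_refl _⟩ : x ∈ Set.Icc (0 : ℝ) x) hx
      linarith
    · have hanti : AntitoneOn g (Set.Icc x s) := by
        apply antitoneOn_of_deriv_nonpos (convex_Icc _ _)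
        · exact hc.mono (fun y hy => by have := hy.2; simp only [Set.mem_Iio]; linarith)
        · intro y hy
          rw [interior_Icc] at hy
          exact (hd y (by linarith [hy.2])).differentiableAt.differentiableWithinAt
        · intro y hy
          rw [interior_Icc] at hy
          rw [(hd y (by linarith [hy.2])).deriv]
          apply div_nonpos_of_nonpos_of_nonneg
          · refine mul_nonpos_of_nonneg_of_nonpos (by linarith [hy.1]) ?_
            nlinarith [hy.1, hy.2]
          · linarith [hy.2]
      have := hanti (⟨le_refl _, hxs⟩ : x ∈ Set.Icc x s) (⟨hxs, le_refl _⟩ : s ∈ Set.Icc x s) hxs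
      linarith

end Pool.Agent.L7h21.FX
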