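import Pool.Agent.L7h77.FX.Stm
import Pool.Agent.W358.FV.PF
import Pool.Agent.W933.FV.GM

/-! [MONO] of project FX (helper77). -/

set_option autoImplicit false

open MeasureTheory

namespace Pool.Agent.L7h21.FX

open Pool.Agent.L7h77.FX Pool.Agent.W716.FV Pool.Agent.W933.FVGM Pool.Agent.W358.FV.PF

theorem gd_neg (n : ℕ) (x : E n) : gd n (-x) = gd n x := by
  unfold gd
  rw [norm_neg]

theorem gd_le (n : ℕ) {x y : E n} (h : ‖x‖ ^ 2 ≤ ‖y‖ ^ 2) : gd n y ≤ gd n x := by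
  unfold gd
  exact mul_le_mul_of_nonneg_left (Real.exp_le_exp.2 (by linarith)) (by positivity)

/-- a shifted Gaussian against an even nonnegative weight -/
theorem sym_nonneg {n : ℕ} (Y : E n → ℝ) (hY : ∀ z, 0 ≤ Y z) (he : ∀ z, Y (-z) = Y z)
    (c : E n) : 0 ≤ ∫ x, Y (x + c) * (inner ℝ (x + c) c : ℝ) ∂(gam n) := by
  rw [int_gam]
  have h1 : ∫ x, gd n x * (Y (x + c) * (inner ℝ (x + c) c : ℝ)) =
      ∫ z, gd n (z - c) * (Y z * (inner ℝ z c : ℝ)) := by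
    rw [← integral_add_right_eq_self (fun z => gd n (z - c) * (Y z * (inner ℝ z c : ℝ))) c]
    simp only [add_sub_cancel_right]
  rw [h1]
  by_cases hi : Integrable (fun z => gd n (z - c) * (Y z * (inner ℝ z c : ℝ)))
  · have h2 := integral_neg_eq_self (fun z => gd n (z - c) * (Y z * (inner ℝ z c : ℝ))) volume
    have h3 := hi.comp_neg
    have h4 : 0 ≤ ∫ z, (gd n (z - c) * (Y z * (inner ℝ z c : ℝ)) +
        gd n (-z - c) * (Y (-z) * (inner ℝ (-z) c : ℝ))) := by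
      refine integral_nonneg fun z => ?_
      have e1 : gd n (-z - c) = gd n (z + c) := by
        rw [← gd_neg n (z + c)]
        congr 1
        abel
      show 0 ≤ gd n (z - c) * (Y z * (inner ℝ z c : ℝ)) +
        gd n (-z - c) * (Y (-z) * (inner ℝ (-z) c : ℝ))
      rw [e1, he, inner_neg_left]
      have e2 : gd n (z - c) * (Y z * (inner ℝ z c : ℝ)) +
          gd n (z + c) * (Y z * -(inner ℝ z c : ℝ)) =
          Y z * ((gd n (z - c) - gd n (z + c)) * (inner ℝ z c : ℝ)) := by ring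
      rw [e2]
      refine mul_nonneg (hY z) ?_
      have n1 := norm_sub_sq_real z c
      have n2 := norm_add_sq_real z c
      rcases le_total 0 (inner ℝ z c : ℝ) with h | h
      · have := gd_le n (x := z - c) (y := z + c) (by linarith)
        exact mul_nonneg (by linarith) h
      · have := gd_le n (x := z + c) (y := z - c) (by linarith)
        exact mul_nonneg_of_nonpos_of_nonpos (by linarith) h
    rw [integral_add hi h3, h2] at h4
    linarith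
  · rw [integral_undef hi]

instance sfg (n : ℕ) : SFinite (gam n) := by
  unfold gam
  infer_instance

instance sfn : SFinite nu := by
  unfold nu
  infer_instance

theorem gam_neg (n : ℕ) : MeasurePreserving (fun x : E n => -x) (gam n) (gam n) := by
  refine ⟨measurable_neg, ?_⟩
  ext s hs
  rw [Measure.map_apply measurable_neg hs, gam, withDensity_apply _ (measurable_neg hs),
    withDensity_apply _ hs]
  rw [← (Measure.measurePreserving_neg (volume : Measure (E n))).setLIntegral_comp_preimage hs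
    (meas_ofReal_gd n)]
  simp only [gd_neg]

theorem kd_neg (x : ℝ) : kd (-x) = kd x := by
  unfold kd
  rw [neg_sq]

theorem meas_kd : Measurable (fun x : ℝ => ENNReal.ofReal (kd x)) := by
  unfold kd
  fun_prop

theorem nu_neg : MeasurePreserving (fun x : ℝ => -x) nu nu := by
  refine ⟨measurable_neg, ?_⟩
  ext s hs
  rw [Measure.map_apply measurable_neg hs, nu, withDensity_apply _ (measurable_neg hs),
    withDensity_apply _ hs]
  rw [← (Measure.measurePreserving_neg (volume : Measure ℝ)).setLIntegral_comp_preimage hs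
    meas_kd]
  simp only [kd_neg]

theorem sym1 {n : ℕ} (f : E n × ℝ → ℝ) :
    ∫ w, f (-w.1, w.2) ∂(P n) = ∫ w, f w ∂(P n) := by
  have h : MeasurePreserving ((MeasurableEquiv.neg (E n)).prodCongr (MeasurableEquiv.refl ℝ))
      (P n) (P n) := (gam_neg n).prod (MeasurePreserving.id nu)
  exact h.integral_comp' f

theorem sym2 {n : ℕ} (f : E n × ℝ → ℝ) :
    ∫ w, f (w.1, -w.2) ∂(P n) = ∫ w, f w ∂(P n) := by
  have h : MeasurePreserving ((MeasurableEquiv.refl (E n)).prodCongr (MeasurableEquiv.neg ℝ))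
      (P n) (P n) := (MeasurePreserving.id (gam n)).prod nu_neg
  exact h.integral_comp' f

/-- the symmetrised function -/
noncomputable def sg {n : ℕ} (u : E n → ℝ) (m : E n) (κ : ℝ) (z : E n) : ℝ :=
  u (z + κ • m) + u (-z + κ • m) - u (-z - κ • m) - u (z - κ • m)

theorem sg_eq {n : ℕ} (u : E n → ℝ) (m b : E n) (κ : ℝ) (g : E n) :
    sg u m κ (g + κ • b) = u ((1 : ℝ) • g + κ • (m + b)) + u ((-1 : ℝ) • g + κ • (m - b)) -
      u ((-1 : ℝ) • g + κ • (-(m + b))) - u ((1 : ℝ) • g + κ • (-(m - b))) := by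
  have e1 : (g + κ • b) + κ • m = (1 : ℝ) • g + κ • (m + b) := by module
  have e2 : -(g + κ • b) + κ • m = (-1 : ℝ) • g + κ • (m - b) := by module
  have e3 : -(g + κ • b) - κ • m = (-1 : ℝ) • g + κ • (-(m + b)) := by module
  have e4 : (g + κ • b) - κ • m = (1 : ℝ) • g + κ • (-(m - b)) := by module
  rw [sg, e1, e2, e3, e4]

theorem sg_even {n : ℕ} (u : E n → ℝ) (m : E n) (κ : ℝ) (z : E n) :
    sg u m κ (-z) = sg u m κ z := by
  unfold sg
  rw [neg_neg]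
  ring

theorem sg_le {n : ℕ} {R : ℝ} {u : E n → ℝ} (hu : Good R u) (m : E n) (κ : ℝ) (z : E n) :
    κ * sg u m κ z ≤ 4 * R * κ ^ 2 * ‖m‖ := by
  have h1 := hu.lip (z + κ • m) (z - κ • m)
  have h2 := hu.lip (-z + κ • m) (-z - κ • m)
  have e1 : (z + κ • m) - (z - κ • m) = (2 * κ) • m := by module
  have e2 : (-z + κ • m) - (-z - κ • m) = (2 * κ) • m := by module
  rw [e1, norm_smul, Real.norm_eq_abs, abs_mul, abs_two] at h1
  rw [e2, norm_smul, Real.norm_eq_abs, abs_mul, abs_two] at h2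
  have h3 : κ * sg u m κ z ≤ |κ| * (|u (z + κ • m) - u (z - κ • m)| +
      |u (-z + κ • m) - u (-z - κ • m)|) := by
    have e : sg u m κ z = (u (z + κ • m) - u (z - κ • m)) +
        (u (-z + κ • m) - u (-z - κ • m)) := by
      unfold sg
      ring
    rw [e]
    refine (le_abs_self _).trans ?_
    rw [abs_mul]
    exact mul_le_mul_of_nonneg_left (abs_add_le _ _) (abs_nonneg _)
  refine h3.trans ?_
  have h4 : |κ| * (|u (z + κ • m) - u (z - κ • m)| +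
      |u (-z + κ • m) - u (-z - κ • m)|) ≤ |κ| * (R * (2 * |κ| * ‖m‖) + R * (2 * |κ| * ‖m‖)) :=
    mul_le_mul_of_nonneg_left (add_le_add h1 h2) (abs_nonneg _)
  refine h4.trans (le_of_eq ?_)
  have h5 : |κ| * |κ| = κ ^ 2 := by rw [abs_mul_abs_self]; ring
  calc |κ| * (R * (2 * |κ| * ‖m‖) + R * (2 * |κ| * ‖m‖)) = 4 * R * (|κ| * |κ|) * ‖m‖ := by ring
    _ = 4 * R * κ ^ 2 * ‖m‖ := by rw [h5]

theorem cont_u {n : ℕ} {R : ℝ} {u : E n → ℝ} (hR : 0 ≤ R) (hu : Good R u) : Continuous u := by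
  have h1 : LipschitzWith ⟨R, hR⟩ u := LipschitzWith.of_dist_le_mul (fun x y => by
    rw [Real.dist_eq, dist_eq_norm]
    exact hu.lip x y)
  exact h1.continuous

theorem bd_u {n : ℕ} {R : ℝ} {u : E n → ℝ} (hu : Good R u) (x : E n) : |u x| ≤ R * ‖x‖ := by
  have h0 : u 0 = 0 := by
    have := hu.hom 0 0 le_rfl
    simpa using this
  have := hu.lip x 0
  rwa [h0, sub_zero, sub_zero] at this

theorem bd_U {n : ℕ} {R : ℝ} {u : E n → ℝ} (hR : 0 ≤ R) (hu : Good R u) {a : ℝ} (ha : |a| = 1)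
    (η : E n) (w : E n × ℝ) :
    |u (a • w.1 + w.2 • η)| ≤ ‖w.1‖ * R + |w.2| * (R * ‖η‖) := by
  refine (bd_u hu _).trans ?_
  have h1 : ‖a • w.1 + w.2 • η‖ ≤ ‖w.1‖ + |w.2| * ‖η‖ := by
    refine (norm_add_le _ _).trans ?_
    rw [norm_smul, norm_smul, Real.norm_eq_abs, Real.norm_eq_abs, ha, one_mul]
  have h2 := mul_le_mul_of_nonneg_left h1 hR
  linarith

theorem iU1 (hPM : PMoments) {n : ℕ} {R : ℝ} {u : E n → ℝ} (hR : 0 ≤ R) (hu : Good R u) {a : ℝ}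
    (ha : |a| = 1) (η : E n) :
    Integrable (fun w : E n × ℝ => w.2 * u (a • w.1 + w.2 • η)) (P n) :=
  (intb hPM (g := fun w => u (a • w.1 + w.2 • η)) ((cont_u hR hu).comp (by fun_prop))
    (bd_U hR hu ha η)).1

theorem iU2 (hPM : PMoments) {n : ℕ} {R : ℝ} {u : E n → ℝ} (hR : 0 ≤ R) (hu : Good R u) {a : ℝ}
    (ha : |a| = 1) (η : E n) :
    Integrable (fun w : E n × ℝ => u (a • w.1 + w.2 • η) • w.1) (P n) :=
  (intm hPM (g := fun w => u (a • w.1 + w.2 • η)) ((cont_u hR hu).comp (by fun_prop))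
    (bd_U hR hu ha η)).1

theorem iU3 (hPM : PMoments) {n : ℕ} {R : ℝ} {u : E n → ℝ} (hR : 0 ≤ R) (hu : Good R u) {a : ℝ}
    (ha : |a| = 1) (η b : E n) :
    Integrable (fun w : E n × ℝ => u (a • w.1 + w.2 • η) * (inner ℝ w.1 b : ℝ)) (P n) := by
  have h := (iU2 hPM hR hu ha η).inner_const (𝕜 := ℝ) b
  refine h.congr (Filter.Eventually.of_forall fun w => ?_)
  show (inner ℝ (u (a • w.1 + w.2 • η) • w.1) b : ℝ) = _
  rw [real_inner_smul_left]

/-- the integrand -/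
noncomputable def Ph {n : ℕ} (R : ℝ) (u : E n → ℝ) (m b : E n) (w : E n × ℝ) : ℝ :=
  ‖b‖ ^ 2 * (4 * R * w.2 ^ 2 * ‖m‖ - w.2 * sg u m w.2 (w.1 + w.2 • b)) -
    sg u m w.2 (w.1 + w.2 • b) * (inner ℝ w.1 b : ℝ) + 4 * R * w.2 * ‖m‖ * (inner ℝ w.1 b : ℝ)

theorem fib_nonneg {n : ℕ} {R : ℝ} {u : E n → ℝ} (hu : Good R u) (m b : E n) (κ : ℝ) :
    0 ≤ ∫ g, Ph R u m b (g, κ) ∂(gam n) := by
  rcases eq_or_ne κ 0 with rfl | hκ
  · refine integral_nonneg fun g => ?_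
    show 0 ≤ Ph R u m b (g, 0)
    simp [Ph, sg]
  · have h := sym_nonneg (fun z => 4 * R * κ ^ 2 * ‖m‖ - κ * sg u m κ z)
      (fun z => by have := sg_le hu m κ z; linarith) (fun z => by simp only [sg_even]) (κ • b)
    have e : ∀ g : E n, (4 * R * κ ^ 2 * ‖m‖ - κ * sg u m κ (g + κ • b)) *
        (inner ℝ (g + κ • b) (κ • b) : ℝ) = κ ^ 2 * Ph R u m b (g, κ) := by
      intro g
      rw [inner_add_left, real_inner_smul_right, real_inner_self_eq_norm_sq, norm_smul, mul_pow,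
        Real.norm_eq_abs, sq_abs]
      unfold Ph
      ring
    simp only [e] at h
    rw [integral_const_mul] at h
    have h2 : 0 < κ ^ 2 := by positivity
    exact nonneg_of_mul_nonneg_right h h2

theorem ab1 : |(1 : ℝ)| = 1 := abs_one
theorem ab2 : |(-1 : ℝ)| = 1 := by rw [abs_neg, abs_one]

/-- the four integrals of the first kind -/
theorem int_a {n : ℕ} (u : E n → ℝ) (m b : E n) (hPM : PMoments) {R : ℝ} (hR : 0 ≤ R)
    (hu : Good R u) :
    Integrable (fun w : E n × ℝ => sg u m w.2 (w.1 + w.2 • b) * (inner ℝ w.1 b : ℝ)) (P n) ∧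
    ∫ w : E n × ℝ, sg u m w.2 (w.1 + w.2 • b) * (inner ℝ w.1 b : ℝ) ∂(P n) =
      2 * ((∫ w, u (xi (m + b) w) * (inner ℝ w.1 b : ℝ) ∂(P n)) -
        ∫ w, u (xi (m - b) w) * (inner ℝ w.1 b : ℝ) ∂(P n)) := by
  have i1 := iU3 hPM hR hu ab1 (m + b) b
  have i2 := iU3 hPM hR hu ab2 (m - b) b
  have i3 := iU3 hPM hR hu ab2 (-(m + b)) b
  have i4 := iU3 hPM hR hu ab1 (-(m - b)) b
  have e1 : ∫ w, u ((1 : ℝ) • w.1 + w.2 • (m + b)) * (inner ℝ w.1 b : ℝ) ∂(P n) =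
      ∫ w, u (xi (m + b) w) * (inner ℝ w.1 b : ℝ) ∂(P n) := by
    simp only [one_smul, xi]
  have e2 : ∫ w, u ((-1 : ℝ) • w.1 + w.2 • (m - b)) * (inner ℝ w.1 b : ℝ) ∂(P n) =
      -∫ w, u (xi (m - b) w) * (inner ℝ w.1 b : ℝ) ∂(P n) := by
    rw [← sym1, ← integral_neg]
    refine integral_congr_ae (Filter.Eventually.of_forall fun w => ?_)
    show u ((-1 : ℝ) • (-w.1) + w.2 • (m - b)) * (inner ℝ (-w.1) b : ℝ) =
      -(u (xi (m - b) w) * (inner ℝ w.1 b : ℝ))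
    rw [inner_neg_left, xi, neg_one_smul, neg_neg]
    ring
  have e3 : ∫ w, u ((-1 : ℝ) • w.1 + w.2 • (-(m + b))) * (inner ℝ w.1 b : ℝ) ∂(P n) =
      -∫ w, u (xi (m + b) w) * (inner ℝ w.1 b : ℝ) ∂(P n) := by
    rw [← sym1, ← sym2, ← integral_neg]
    refine integral_congr_ae (Filter.Eventually.of_forall fun w => ?_)
    show u ((-1 : ℝ) • (-w.1) + (-w.2) • (-(m + b))) * (inner ℝ (-w.1) b : ℝ) =
      -(u (xi (m + b) w) * (inner ℝ w.1 b : ℝ))
    rw [inner_neg_left, xi, neg_one_smul, neg_neg, neg_smul_neg]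
    ring
  have e4 : ∫ w, u ((1 : ℝ) • w.1 + w.2 • (-(m - b))) * (inner ℝ w.1 b : ℝ) ∂(P n) =
      ∫ w, u (xi (m - b) w) * (inner ℝ w.1 b : ℝ) ∂(P n) := by
    rw [← sym2]
    refine integral_congr_ae (Filter.Eventually.of_forall fun w => ?_)
    show u ((1 : ℝ) • w.1 + (-w.2) • (-(m - b))) * (inner ℝ w.1 b : ℝ) =
      u (xi (m - b) w) * (inner ℝ w.1 b : ℝ)
    rw [xi, one_smul, neg_smul_neg]
  have hs : ∀ w : E n × ℝ, sg u m w.2 (w.1 + w.2 • b) * (inner ℝ w.1 b : ℝ) =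
      u ((1 : ℝ) • w.1 + w.2 • (m + b)) * (inner ℝ w.1 b : ℝ) +
      u ((-1 : ℝ) • w.1 + w.2 • (m - b)) * (inner ℝ w.1 b : ℝ) -
      u ((-1 : ℝ) • w.1 + w.2 • (-(m + b))) * (inner ℝ w.1 b : ℝ) -
      u ((1 : ℝ) • w.1 + w.2 • (-(m - b))) * (inner ℝ w.1 b : ℝ) := by
    intro w
    rw [sg_eq]
    ring
  simp only [hs]
  have k1 : Integrable (fun w : E n × ℝ =>
      u ((1 : ℝ) • w.1 + w.2 • (m + b)) * (inner ℝ w.1 b : ℝ) +
      u ((-1 : ℝ) • w.1 + w.2 • (m - b)) * (inner ℝ w.1 b : ℝ)) (P n) := i1.add i2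
  have k2 : Integrable (fun w : E n × ℝ =>
      u ((1 : ℝ) • w.1 + w.2 • (m + b)) * (inner ℝ w.1 b : ℝ) +
      u ((-1 : ℝ) • w.1 + w.2 • (m - b)) * (inner ℝ w.1 b : ℝ) -
      u ((-1 : ℝ) • w.1 + w.2 • (-(m + b))) * (inner ℝ w.1 b : ℝ)) (P n) := k1.sub i3
  refine ⟨k2.sub i4, ?_⟩
  rw [integral_sub k2 i4, integral_sub k1 i3, integral_add i1 i2, e1, e2, e3, e4]
  ring

/-- the four integrals of the second kind -/
theorem int_b {n : ℕ} (u : E n → ℝ) (m b : E n) (hPM : PMoments) {R : ℝ} (hR : 0 ≤ R)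
    (hu : Good R u) :
    Integrable (fun w : E n × ℝ => w.2 * sg u m w.2 (w.1 + w.2 • b)) (P n) ∧
    ∫ w : E n × ℝ, w.2 * sg u m w.2 (w.1 + w.2 • b) ∂(P n) =
      2 * ((∫ w, w.2 * u (xi (m - b) w) ∂(P n)) + ∫ w, w.2 * u (xi (m + b) w) ∂(P n)) := by
  have i1 := iU1 hPM hR hu ab1 (m + b)
  have i2 := iU1 hPM hR hu ab2 (m - b)
  have i3 := iU1 hPM hR hu ab2 (-(m + b))
  have i4 := iU1 hPM hR hu ab1 (-(m - b))
  have e1 : ∫ w, w.2 * u ((1 : ℝ) • w.1 + w.2 • (m + b)) ∂(P n) =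
      ∫ w, w.2 * u (xi (m + b) w) ∂(P n) := by
    simp only [one_smul, xi]
  have e2 : ∫ w, w.2 * u ((-1 : ℝ) • w.1 + w.2 • (m - b)) ∂(P n) =
      ∫ w, w.2 * u (xi (m - b) w) ∂(P n) := by
    rw [← sym1]
    refine integral_congr_ae (Filter.Eventually.of_forall fun w => ?_)
    show w.2 * u ((-1 : ℝ) • (-w.1) + w.2 • (m - b)) = w.2 * u (xi (m - b) w)
    rw [xi, neg_one_smul, neg_neg]
  have e3 : ∫ w, w.2 * u ((-1 : ℝ) • w.1 + w.2 • (-(m + b))) ∂(P n) =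
      -∫ w, w.2 * u (xi (m + b) w) ∂(P n) := by
    rw [← sym1, ← sym2, ← integral_neg]
    refine integral_congr_ae (Filter.Eventually.of_forall fun w => ?_)
    show (-w.2) * u ((-1 : ℝ) • (-w.1) + (-w.2) • (-(m + b))) = -(w.2 * u (xi (m + b) w))
    rw [xi, neg_one_smul, neg_neg, neg_smul_neg]
    ring
  have e4 : ∫ w, w.2 * u ((1 : ℝ) • w.1 + w.2 • (-(m - b))) ∂(P n) =
      -∫ w, w.2 * u (xi (m - b) w) ∂(P n) := by
    rw [← sym2, ← integral_neg]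
    refine integral_congr_ae (Filter.Eventually.of_forall fun w => ?_)
    show (-w.2) * u ((1 : ℝ) • w.1 + (-w.2) • (-(m - b))) = -(w.2 * u (xi (m - b) w))
    rw [xi, one_smul, neg_smul_neg]
    ring
  have hs : ∀ w : E n × ℝ, w.2 * sg u m w.2 (w.1 + w.2 • b) =
      w.2 * u ((1 : ℝ) • w.1 + w.2 • (m + b)) +
      w.2 * u ((-1 : ℝ) • w.1 + w.2 • (m - b)) -
      w.2 * u ((-1 : ℝ) • w.1 + w.2 • (-(m + b))) -
      w.2 * u ((1 : ℝ) • w.1 + w.2 • (-(m - b))) := by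
    intro w
    rw [sg_eq]
    ring
  simp only [hs]
  have k1 : Integrable (fun w : E n × ℝ =>
      w.2 * u ((1 : ℝ) • w.1 + w.2 • (m + b)) +
      w.2 * u ((-1 : ℝ) • w.1 + w.2 • (m - b))) (P n) := i1.add i2
  have k2 : Integrable (fun w : E n × ℝ =>
      w.2 * u ((1 : ℝ) • w.1 + w.2 • (m + b)) +
      w.2 * u ((-1 : ℝ) • w.1 + w.2 • (m - b)) -
      w.2 * u ((-1 : ℝ) • w.1 + w.2 • (-(m + b)))) (P n) := k1.sub i3
  refine ⟨k2.sub i4, ?_⟩
  rw [integral_sub k2 i4, integral_sub k1 i3, integral_add i1 i2, e1, e2, e3, e4]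
  ring

theorem key (hPM : PMoments) {n : ℕ} {R : ℝ} {u : E n → ℝ} (hR : 0 ≤ R) (hu : Good R u)
    (m b : E n) :
    2 * ((∫ w, u (xi (m + b) w) * (inner ℝ w.1 b : ℝ) ∂(P n)) -
        ∫ w, u (xi (m - b) w) * (inner ℝ w.1 b : ℝ) ∂(P n)) ≤
      ‖b‖ ^ 2 * (4 / 3 * R * ‖m‖ -
        2 * ((∫ w, w.2 * u (xi (m - b) w) ∂(P n)) + ∫ w, w.2 * u (xi (m + b) w) ∂(P n))) := by
  obtain ⟨ia, ea⟩ := int_a u m b hPM hR hu
  obtain ⟨ib, eb⟩ := int_b u m b hPM hR hu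
  have ic := i20 hPM n
  have ec := (hPM n).2.2.2.2.1
  have id : Integrable (fun w : E n × ℝ => w.2 * (inner ℝ w.1 b : ℝ)) (P n) := by
    refine (((i11 hPM n).const_mul ‖b‖)).mono' (by fun_prop) (Filter.Eventually.of_forall fun w => ?_)
    rw [norm_mul, Real.norm_eq_abs]
    have := mul_le_mul_of_nonneg_left (norm_inner_le_norm (𝕜 := ℝ) w.1 b) (abs_nonneg w.2)
    linarith
  have ed : ∫ w, w.2 * (inner ℝ w.1 b : ℝ) ∂(P n) = 0 :=
    (hPM n).2.2.2.2.2.1 (fun x => (inner ℝ x b : ℝ))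
  have e : ∀ w : E n × ℝ, Ph R u m b w = ‖b‖ ^ 2 * (4 * R * ‖m‖) * w.2 ^ 2 -
      ‖b‖ ^ 2 * (w.2 * sg u m w.2 (w.1 + w.2 • b)) -
      sg u m w.2 (w.1 + w.2 • b) * (inner ℝ w.1 b : ℝ) +
      4 * R * ‖m‖ * (w.2 * (inner ℝ w.1 b : ℝ)) := by
    intro w
    unfold Ph
    ring
  have jc := ic.const_mul (‖b‖ ^ 2 * (4 * R * ‖m‖))
  have jb := ib.const_mul (‖b‖ ^ 2)
  have jd := id.const_mul (4 * R * ‖m‖)
  have hint : Integrable (Ph R u m b) (P n) := by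
    have : Ph R u m b = fun w => Ph R u m b w := rfl
    rw [this]
    simp only [e]
    exact ((jc.sub jb).sub ia).add jd
  have h0 : 0 ≤ ∫ w, Ph R u m b w ∂(P n) := by
    have h1 : ∫ w, Ph R u m b w ∂(P n) = ∫ κ, ∫ g, Ph R u m b (g, κ) ∂(gam n) ∂nu := by
      unfold P at hint ⊢
      exact integral_prod_symm _ hint
    rw [h1]
    exact integral_nonneg fun κ => fib_nonneg hu m b κ
  have h2 : ∫ w, Ph R u m b w ∂(P n) = ‖b‖ ^ 2 * (4 * R * ‖m‖) * (1 / 3) -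
      ‖b‖ ^ 2 * (2 * ((∫ w, w.2 * u (xi (m - b) w) ∂(P n)) +
        ∫ w, w.2 * u (xi (m + b) w) ∂(P n))) -
      2 * ((∫ w, u (xi (m + b) w) * (inner ℝ w.1 b : ℝ) ∂(P n)) -
        ∫ w, u (xi (m - b) w) * (inner ℝ w.1 b : ℝ) ∂(P n)) + 4 * R * ‖m‖ * 0 := by
    simp only [e]
    have k1 : Integrable (fun w : E n × ℝ => ‖b‖ ^ 2 * (4 * R * ‖m‖) * w.2 ^ 2 -
      ‖b‖ ^ 2 * (w.2 * sg u m w.2 (w.1 + w.2 • b))) (P n) := jc.sub jb
    have k2 : Integrable (fun w : E n × ℝ => ‖b‖ ^ 2 * (4 * R * ‖m‖) * w.2 ^ 2 -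
      ‖b‖ ^ 2 * (w.2 * sg u m w.2 (w.1 + w.2 • b)) -
      sg u m w.2 (w.1 + w.2 • b) * (inner ℝ w.1 b : ℝ)) (P n) := k1.sub ia
    rw [integral_add k2 jd, integral_sub k1 ia, integral_sub jc jb,
      integral_const_mul, integral_const_mul, integral_const_mul, ea, eb, ec, ed]
  rw [h2] at h0
  linarith

theorem s_MONO (hPM : PMoments) : S_MONO := by
  intro n R u hR hu η₁ η₂
  obtain ⟨m, hm⟩ : ∃ m : E n, m = (1 / 2 : ℝ) • (η₁ + η₂) := ⟨_, rfl⟩
  obtain ⟨b, hb⟩ : ∃ b : E n, b = (1 / 2 : ℝ) • (η₂ - η₁) := ⟨_, rfl⟩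
  have h1 : η₁ = m - b := by
    rw [hm, hb]
    module
  have h2 : η₂ = m + b := by
    rw [hm, hb]
    module
  clear hm hb
  subst h1 h2
  have hk := key hPM hR hu m b
  have i1 : Integrable (fun w : E n × ℝ => u (xi (m - b) w) • w.1) (P n) := by
    have := iU2 hPM hR hu ab1 (m - b)
    simp only [one_smul] at this
    exact this
  have i2 : Integrable (fun w : E n × ℝ => u (xi (m + b) w) • w.1) (P n) := by
    have := iU2 hPM hR hu ab1 (m + b)
    simp only [one_smul] at this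
    exact this
  have e1 : (inner ℝ (∫ w, u (xi (m - b) w) • w.1 ∂(P n)) b : ℝ) =
      ∫ w, u (xi (m - b) w) * (inner ℝ w.1 b : ℝ) ∂(P n) := by
    rw [real_inner_comm, ← integral_inner i1]
    refine integral_congr_ae (Filter.Eventually.of_forall fun w => ?_)
    show (inner ℝ b (u (xi (m - b) w) • w.1) : ℝ) = _
    rw [real_inner_smul_right, real_inner_comm]
  have e2 : (inner ℝ (∫ w, u (xi (m + b) w) • w.1 ∂(P n)) b : ℝ) =
      ∫ w, u (xi (m + b) w) * (inner ℝ w.1 b : ℝ) ∂(P n) := by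
    rw [real_inner_comm, ← integral_inner i2]
    refine integral_congr_ae (Filter.Eventually.of_forall fun w => ?_)
    show (inner ℝ b (u (xi (m + b) w) • w.1) : ℝ) = _
    rw [real_inner_smul_right, real_inner_comm]
  have e3 : (m + b) - (m - b) = (2 : ℝ) • b := by module
  have e4 : TT u (m + b) - TT u (m - b) = ((∫ w, u (xi (m + b) w) • w.1 ∂(P n)) -
      ∫ w, u (xi (m - b) w) • w.1 ∂(P n)) - (2 : ℝ) • b := by
    unfold TT
    module
  have n1 : ‖(2 : ℝ) • b‖ ^ 2 = 4 * ‖b‖ ^ 2 := by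
    rw [norm_smul, mul_pow]
    norm_num
  rw [e4, e3, real_inner_smul_right, inner_sub_left, inner_sub_left, e1, e2,
    real_inner_smul_left, real_inner_self_eq_norm_sq, n1]
  have p1 := norm_sub_sq_real m b
  have p2 := norm_add_sq_real m b
  have hb0 := sq_nonneg ‖b‖
  have h3 : ‖b‖ ^ 2 * (4 / 3 * R * ‖m‖ -
        2 * ((∫ w, w.2 * u (xi (m - b) w) ∂(P n)) + ∫ w, w.2 * u (xi (m + b) w) ∂(P n))) ≤
      ‖b‖ ^ 2 * (2 * (SS R u (m - b) + SS R u (m + b))) := by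
    refine mul_le_mul_of_nonneg_left ?_ hb0
    unfold SS
    have := sq_nonneg (R - ‖m‖)
    nlinarith
  linarith

end Pool.Agent.L7h21.FX
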